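import Pool.Agent.H46.Ent.Entropy

/-! Asymptotics in the frequency (helper file for MP_1d7c3b_pr). -/

set_option autoImplicit false

open MeasureTheory ProbabilityTheory

namespace Pool.Agent.H46.Ent

variable {n : ℕ}

/-- constant index vectors -/
def zv (n : ℕ) : Fin n → Fin 3 := fun _ => 0
def pv (n : ℕ) : Fin n → Fin 3 := fun _ => 1
def mv (n : ℕ) : Fin n → Fin 3 := fun _ => 2

lemma sv_zero : sv 0 = 0 := by simp [sv]
lemma sv_one : sv 1 = 1 := by simp [sv]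
lemma sv_two : sv 2 = -1 := by simp [sv]

lemma cw_nonneg {ε : ℝ} (hε : 0 ≤ ε) (j : Fin 3) : 0 ≤ cw ε j := by
  fin_cases j
  · show 0 ≤ cw ε 0
    simp [cw]
  · show 0 ≤ cw ε 1
    simp [cw]; linarith
  · show 0 ≤ cw ε 2
    simp [cw]; linarith

lemma cw_le_one {ε : ℝ} (hε1 : ε ≤ 1) (j : Fin 3) : cw ε j ≤ 1 := by
  fin_cases j
  · show cw ε 0 ≤ 1
    simp [cw]
  · show cw ε 1 ≤ 1
    simp [cw]; linarith
  · show cw ε 2 ≤ 1
    simp [cw]; linarith

lemma am_nonneg {ε ω : ℝ} (hε : 0 ≤ ε) (d : Fin n → ℝ) (s : Fin n → Fin 3) :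
    0 ≤ am ε ω d s :=
  mul_nonneg (Finset.prod_nonneg fun i _ => cw_nonneg hε _) (Real.exp_pos _).le

lemma am_le {ε ω κ : ℝ} (hε : 0 ≤ ε) (hε1 : ε ≤ 1) (d : Fin n → ℝ) (s : Fin n → Fin 3)
    (hκ : κ ≤ s2 s - sd d s ^ 2) : am ε ω d s ≤ Real.exp (-(ω ^ 2 * κ / 2)) := by
  unfold am
  have h1 : ∏ i, cw ε (s i) ≤ 1 :=
    Finset.prod_le_one (fun _ _ => cw_nonneg hε _) fun _ _ => cw_le_one hε1 _
  have h2 : Real.exp (-(ω ^ 2 * (s2 s - sd d s ^ 2) / 2)) ≤ Real.exp (-(ω ^ 2 * κ / 2)) := by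
    apply Real.exp_le_exp.2
    have := mul_le_mul_of_nonneg_left hκ (sq_nonneg ω)
    linarith
  calc (∏ i, cw ε (s i)) * Real.exp (-(ω ^ 2 * (s2 s - sd d s ^ 2) / 2))
      ≤ 1 * Real.exp (-(ω ^ 2 * κ / 2)) :=
        mul_le_mul h1 h2 (Real.exp_pos _).le zero_le_one
    _ = _ := one_mul _

lemma am_zv (ε ω : ℝ) (d : Fin n → ℝ) : am ε ω d (zv n) = 1 := by
  simp [am, zv, s2, sd, sv_zero, cw]

lemma sd_zv (d : Fin n → ℝ) : sd d (zv n) = 0 := by simp [zv, sd, sv_zero]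

/-- sum over a set of sign vectors -/
noncomputable def ps (ε ω : ℝ) (d : Fin n → ℝ) (T : Finset (Fin n → Fin 3)) (y : ℝ) : ℝ :=
  ∑ s ∈ T, am ε ω d s * Real.cos (ω * sd d s * y)

lemma continuous_ps (ε ω : ℝ) (d : Fin n → ℝ) (T : Finset (Fin n → Fin 3)) :
    Continuous (ps ε ω d T) := by unfold ps; fun_prop

lemma abs_ps_le {ε ω κ : ℝ} (hε : 0 ≤ ε) (hε1 : ε ≤ 1) (d : Fin n → ℝ)
    (T : Finset (Fin n → Fin 3)) (hκ : ∀ s ∈ T, κ ≤ s2 s - sd d s ^ 2) (y : ℝ) :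
    |ps ε ω d T y| ≤ 3 ^ n * Real.exp (-(ω ^ 2 * κ / 2)) := by
  unfold ps
  calc |∑ s ∈ T, am ε ω d s * Real.cos (ω * sd d s * y)|
      ≤ ∑ s ∈ T, |am ε ω d s * Real.cos (ω * sd d s * y)| := Finset.abs_sum_le_sum_abs _ _
    _ ≤ ∑ s ∈ T, Real.exp (-(ω ^ 2 * κ / 2)) := by
        refine Finset.sum_le_sum fun s hs => ?_
        rw [abs_mul, abs_of_nonneg (am_nonneg hε d s)]
        calc am ε ω d s * |Real.cos (ω * sd d s * y)| ≤ am ε ω d s * 1 :=
              mul_le_mul_of_nonneg_left (Real.abs_cos_le_one _) (am_nonneg hε d s)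
          _ ≤ _ := by rw [mul_one]; exact am_le hε hε1 d s (hκ s hs)
    _ = T.card * Real.exp (-(ω ^ 2 * κ / 2)) := by rw [Finset.sum_const, nsmul_eq_mul]
    _ ≤ 3 ^ n * Real.exp (-(ω ^ 2 * κ / 2)) := by
        apply mul_le_mul_of_nonneg_right _ (Real.exp_pos _).le
        have : T.card ≤ 3 ^ n := by
          calc T.card ≤ Fintype.card (Fin n → Fin 3) := Finset.card_le_univ T
            _ = 3 ^ n := by simp
        exact_mod_cast this

lemma Wd_eq (ε ω : ℝ) (d : Fin n → ℝ) (y : ℝ) :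
    Wd ε ω d y - 1 = ps ε ω d (Finset.univ.erase (zv n)) y := by
  unfold Wd tp ps
  rw [← Finset.add_sum_erase _ _ (Finset.mem_univ (zv n)), am_zv]
  simp only [sd_zv]
  simp

lemma gap_eq (d : Fin n → ℝ) (hd : ∑ i, d i ^ 2 = 1) (s : Fin n → Fin 3) :
    s2 s - sd d s ^ 2 = ∑ i, (sv (s i) - sd d s * d i) ^ 2 := by
  have h : ∑ i, (sv (s i) - sd d s * d i) ^ 2 =
      s2 s - 2 * sd d s * sd d s + sd d s ^ 2 * ∑ i, d i ^ 2 := by
    have e : ∑ i, (sv (s i) - sd d s * d i) ^ 2 = ∑ i, (sv (s i) ^ 2 -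
        2 * sd d s * (sv (s i) * d i) + sd d s ^ 2 * d i ^ 2) :=
      Finset.sum_congr rfl fun i _ => by ring
    rw [e, Finset.sum_add_distrib, Finset.sum_sub_distrib, ← Finset.mul_sum, ← Finset.mul_sum]
    rfl
  rw [h, hd]; ring

lemma sv_eq_zero {j : Fin 3} (h : sv j = 0) : j = 0 := by
  fin_cases j
  · rfl
  · exact absurd (show sv 1 = 0 from h) (by simp [sv])
  · exact absurd (show sv 2 = 0 from h) (by simp [sv])

lemma sv_eq_one {j : Fin 3} (h : sv j = 1) : j = 1 := by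
  fin_cases j
  · exact absurd (show sv 0 = 1 from h) (by simp [sv])
  · rfl
  · have h2 : sv 2 = 1 := h
    rw [show sv 2 = -1 by simp [sv]] at h2
    norm_num at h2

lemma sv_eq_neg_one {j : Fin 3} (h : sv j = -1) : j = 2 := by
  fin_cases j
  · exact absurd (show sv 0 = -1 from h) (by norm_num [sv])
  · exact absurd (show sv 1 = -1 from h) (by norm_num [sv])
  · rfl

lemma sv_abs {j : Fin 3} (h : sv j ≠ 0) : |sv j| = 1 := by
  fin_cases j
  · exact absurd sv_zero h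
  · show |sv 1| = 1
    simp [sv_one]
  · show |sv 2| = 1
    simp [sv_two]

/-- a unit vector is flat if all its nonzero entries have the same absolute value -/
def Flat (d : Fin n → ℝ) : Prop := ∀ i j, d i ≠ 0 → d j ≠ 0 → |d i| = |d j|

lemma gap_pos {d : Fin n → ℝ} (hd : ∑ i, d i ^ 2 = 1) (hflat : ¬ Flat d)
    {s : Fin n → Fin 3} (hs : s ≠ zv n) : 0 < s2 s - sd d s ^ 2 := by
  rw [gap_eq d hd s]
  refine lt_of_le_of_ne (Finset.sum_nonneg fun i _ => sq_nonneg _) fun h0 => hflat ?_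
  have h1 : ∀ i, sv (s i) = sd d s * d i := by
    intro i
    have := (Finset.sum_eq_zero_iff_of_nonneg fun i _ =>
      sq_nonneg (sv (s i) - sd d s * d i)).1 h0.symm i (Finset.mem_univ i)
    have := pow_eq_zero_iff (two_ne_zero) |>.1 this
    linarith
  have h2 : sd d s ≠ 0 := by
    intro h
    apply hs
    funext i
    exact sv_eq_zero (by rw [h1 i, h, zero_mul])
  have h3 : ∀ i, d i ≠ 0 → |d i| = 1 / |sd d s| := by
    intro i hi
    have : sv (s i) ≠ 0 := by rw [h1 i]; exact mul_ne_zero h2 hi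
    have h4 := sv_abs this
    rw [h1 i, abs_mul] at h4
    have h5 : |sd d s| ≠ 0 := abs_ne_zero.2 h2
    field_simp
    linarith
  intro i j hi hj
  rw [h3 i hi, h3 j hj]

/-- the equal-weights vector -/
noncomputable def ev (n : ℕ) : Fin n → ℝ := fun _ => 1 / √n

lemma ev_unit (hn : 0 < n) : ∑ i, ev n i ^ 2 = 1 := by
  have : (0 : ℝ) < n := by exact_mod_cast hn
  simp only [ev, Finset.sum_const, Finset.card_univ, Fintype.card_fin, nsmul_eq_mul]
  rw [div_pow, Real.sq_sqrt this.le]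
  field_simp

lemma gap_pos_e (hn : 0 < n) {s : Fin n → Fin 3} (hs : s ≠ zv n) (hp : s ≠ pv n)
    (hm : s ≠ mv n) : 0 < s2 s - sd (ev n) s ^ 2 := by
  rw [gap_eq (ev n) (ev_unit hn) s]
  refine lt_of_le_of_ne (Finset.sum_nonneg fun i _ => sq_nonneg _) fun h0 => ?_
  have h1 : ∀ i, sv (s i) = sd (ev n) s * (1 / √n) := by
    intro i
    have := (Finset.sum_eq_zero_iff_of_nonneg fun i _ =>
      sq_nonneg (sv (s i) - sd (ev n) s * ev n i)).1 h0.symm i (Finset.mem_univ i)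
    have h5 := pow_eq_zero_iff (two_ne_zero) |>.1 this
    have h6 : ev n i = 1 / √n := rfl
    rw [h6] at h5
    linarith
  have hj : ∀ i, sv (s i) = sv (s ⟨0, hn⟩) := fun i => by rw [h1 i, h1 ⟨0, hn⟩]
  by_cases h2 : sv (s ⟨0, hn⟩) = 0
  · exact hs (funext fun i => sv_eq_zero (by rw [hj i, h2]))
  · have h3 := sv_abs h2
    rcases (abs_eq (zero_le_one' ℝ)).1 h3 with h4 | h4
    · exact hp (funext fun i => sv_eq_one (by rw [hj i, h4]))
    · exact hm (funext fun i => sv_eq_neg_one (by rw [hj i, h4]))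

lemma exists_kappa (P : (Fin n → Fin 3) → Prop) (F : (Fin n → Fin 3) → ℝ)
    (h : ∀ s, P s → 0 < F s) : ∃ κ : ℝ, 0 < κ ∧ ∀ s, P s → κ ≤ F s := by
  classical
  by_cases hne : (Finset.univ.filter P).Nonempty
  · obtain ⟨s0, hs0, hmin⟩ := Finset.exists_min_image _ F hne
    refine ⟨F s0, h s0 (Finset.mem_filter.1 hs0).2, fun s hs => ?_⟩
    exact hmin s (Finset.mem_filter.2 ⟨Finset.mem_univ _, hs⟩)
  · refine ⟨1, one_pos, fun s hs => ?_⟩
    exact absurd ⟨s, Finset.mem_filter.2 ⟨Finset.mem_univ _, hs⟩⟩ hne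

lemma pv_ne_zv (hn : 0 < n) : pv n ≠ zv n := fun h => by
  have := congrFun h ⟨0, hn⟩
  simp [pv, zv] at this

lemma mv_ne_zv (hn : 0 < n) : mv n ≠ zv n := fun h => by
  have := congrFun h ⟨0, hn⟩
  simp [mv, zv] at this

lemma mv_ne_pv (hn : 0 < n) : mv n ≠ pv n := fun h => by
  have := congrFun h ⟨0, hn⟩
  revert this
  simp [mv, pv]

/-- remaining sign vectors -/
def rest (n : ℕ) : Finset (Fin n → Fin 3) :=
  ((Finset.univ.erase (zv n)).erase (pv n)).erase (mv n)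

lemma sd_pv (hn : 0 < n) : sd (ev n) (pv n) = √n := by
  have h : (0 : ℝ) < n := by exact_mod_cast hn
  have hs : √(n : ℝ) ^ 2 = n := Real.sq_sqrt h.le
  have h2 : 0 < √(n : ℝ) := Real.sqrt_pos.2 h
  simp only [sd, pv, sv_one, ev, Finset.sum_const, Finset.card_univ, Fintype.card_fin,
    nsmul_eq_mul]
  rw [one_mul]
  field_simp
  linarith

lemma sd_mv (hn : 0 < n) : sd (ev n) (mv n) = -√n := by
  rw [← sd_pv hn]
  simp only [sd, pv, mv, sv_one, sv_two, ← Finset.sum_neg_distrib]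
  refine Finset.sum_congr rfl fun i _ => by ring

lemma s2_pv : s2 (pv n) = n := by simp [s2, pv, sv_one]

lemma s2_mv : s2 (mv n) = n := by simp [s2, mv, sv_two]

lemma am_pv (ε ω : ℝ) (hn : 0 < n) : am ε ω (ev n) (pv n) = (ε / 2) ^ n := by
  unfold am
  rw [sd_pv hn, s2_pv, Real.sq_sqrt (by positivity)]
  simp [pv, cw, div_pow]

lemma am_mv (ε ω : ℝ) (hn : 0 < n) : am ε ω (ev n) (mv n) = (ε / 2) ^ n := by
  unfold am
  rw [sd_mv hn, s2_mv, neg_sq, Real.sq_sqrt (by positivity)]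
  simp [mv, cw, div_pow]

lemma We_eq (ε ω : ℝ) (hn : 0 < n) (y : ℝ) :
    Wd ε ω (ev n) y - 1 = 2 * (ε / 2) ^ n * Real.cos (ω * √n * y) +
      ps ε ω (ev n) (rest n) y := by
  rw [Wd_eq]
  unfold ps rest
  have h1 : pv n ∈ Finset.univ.erase (zv n) :=
    Finset.mem_erase.2 ⟨pv_ne_zv hn, Finset.mem_univ _⟩
  have h2 : mv n ∈ (Finset.univ.erase (zv n)).erase (pv n) :=
    Finset.mem_erase.2 ⟨mv_ne_pv hn, Finset.mem_erase.2 ⟨mv_ne_zv hn, Finset.mem_univ _⟩⟩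
  rw [← Finset.add_sum_erase _ _ h1, ← Finset.add_sum_erase _ _ h2, am_pv ε ω hn, am_mv ε ω hn,
    sd_pv hn, sd_mv hn]
  have : ω * -√(n : ℝ) * y = -(ω * √n * y) := by ring
  rw [this, Real.cos_neg]
  ring

end Pool.Agent.H46.Ent
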