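import Mathlib

/-! Gaussian integrals of trigonometric polynomials (helper file for MP_1d7c3b_pr). -/

set_option autoImplicit false

open MeasureTheory ProbabilityTheory

namespace Pool.Agent.H46.Ent

/-- The unnormalised Gaussian kernel. -/
noncomputable def gk (y : ℝ) : ℝ := Real.exp (-(y ^ 2) / 2)

lemma gk_pos (y : ℝ) : 0 < gk y := Real.exp_pos _

lemma gk_nonneg (y : ℝ) : 0 ≤ gk y := (gk_pos y).le

lemma continuous_gk : Continuous gk := by
  unfold gk; fun_prop

lemma gk_eq (y : ℝ) : gk y = Real.exp (-(1 / 2) * y ^ 2) := by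
  unfold gk; congr 1; ring

lemma integrable_gk : Integrable gk := by
  have := integrable_exp_neg_mul_sq (b := 1 / 2) (by norm_num)
  exact this.congr (Filter.Eventually.of_forall fun y => by simp [gk_eq])

lemma integral_gk : ∫ y, gk y = √(2 * Real.pi) := by
  have := integral_gaussian (1 / 2)
  simp_rw [gk_eq]
  rw [this]
  congr 1
  field_simp

lemma integrable_sq_mul_gk : Integrable (fun y => y ^ 2 * gk y) := by
  have h := integrable_rpow_mul_exp_neg_mul_sq (b := 1 / 2) (by norm_num) (s := 2) (by norm_num)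
  refine h.congr (Filter.Eventually.of_forall fun y => ?_)
  simp [gk_eq]

/-- bounded continuous times `gk` is integrable -/
lemma integrable_gk_mul {F : ℝ → ℝ} (hF : Continuous F) (B : ℝ) (hB : ∀ y, |F y| ≤ B) :
    Integrable (fun y => gk y * F y) := by
  have h := integrable_gk.bdd_mul (c := B) hF.aestronglyMeasurable
    (Filter.Eventually.of_forall fun y => by simpa using hB y)
  exact h.congr (Filter.Eventually.of_forall fun y => by ring)

lemma integrable_sq_gk_mul {F : ℝ → ℝ} (hF : Continuous F) (B : ℝ) (hB : ∀ y, |F y| ≤ B) :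
    Integrable (fun y => y ^ 2 * (gk y * F y)) := by
  have h := integrable_sq_mul_gk.bdd_mul (c := B) hF.aestronglyMeasurable
    (Filter.Eventually.of_forall fun y => by simpa using hB y)
  exact h.congr (Filter.Eventually.of_forall fun y => by ring)

lemma cpow_aux : ((Real.pi : ℂ) / (1 / 2 : ℂ)) ^ (1 / 2 : ℂ) = ((√(2 * Real.pi) : ℝ) : ℂ) := by
  rw [Real.sqrt_eq_rpow, Complex.ofReal_cpow (by positivity)]
  congr 1
  · push_cast; ring
  · push_cast; ring

lemma integral_gk_cexp (ν t : ℝ) :
    ∫ y : ℝ, (gk y : ℂ) * Complex.exp (Complex.I * ν * y) * Complex.exp (t * y * Complex.I)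
      = (√(2 * Real.pi) : ℝ) * Complex.exp (-(((t + ν) ^ 2 / 2 : ℝ) : ℂ)) := by
  have h := fourierIntegral_gaussian (b := 1 / 2) (by norm_num) ((t + ν : ℝ) : ℂ)
  rw [cpow_aux] at h
  have e : (fun y : ℝ => (gk y : ℂ) * Complex.exp (Complex.I * ν * y) *
      Complex.exp (t * y * Complex.I)) =
      fun y : ℝ => Complex.exp (Complex.I * ((t + ν : ℝ) : ℂ) * y) *
        Complex.exp (-(1 / 2) * (y : ℂ) ^ 2) := by
    funext y
    rw [gk_eq, Complex.ofReal_exp, ← Complex.exp_add, ← Complex.exp_add, ← Complex.exp_add]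
    congr 1
    push_cast
    ring
  rw [e, h]
  congr 2
  push_cast
  ring

lemma integrable_gk_cexp (ν t : ℝ) :
    Integrable (fun y : ℝ => (gk y : ℂ) * Complex.exp (Complex.I * ν * y) *
      Complex.exp (t * y * Complex.I)) := by
  have h2 := integrable_cexp_quadratic (b := 1 / 2) (by norm_num)
    (Complex.I * ((t + ν : ℝ) : ℂ)) 0
  refine h2.congr (Filter.Eventually.of_forall fun y => ?_)
  simp only
  rw [gk_eq, Complex.ofReal_exp, ← Complex.exp_add, ← Complex.exp_add]
  congr 1
  push_cast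
  ring

lemma integral_gk_cos (ν : ℝ) :
    ∫ y : ℝ, gk y * Real.cos (ν * y) = √(2 * Real.pi) * Real.exp (-(ν ^ 2 / 2)) := by
  have h := integral_gk_cexp ν 0
  have hi := integrable_gk_cexp ν 0
  have h2 := congrArg Complex.re h
  rw [← RCLike.re_eq_complex_re, ← integral_re hi] at h2
  simp only [RCLike.re_eq_complex_re] at h2
  have e : (fun y : ℝ => ((gk y : ℂ) * Complex.exp (Complex.I * ν * y) *
      Complex.exp ((0 : ℝ) * y * Complex.I)).re) = fun y => gk y * Real.cos (ν * y) := by
    funext y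
    have : Complex.I * ν * y = ((ν * y : ℝ) : ℂ) * Complex.I := by push_cast; ring
    rw [this, Complex.ofReal_zero, zero_mul, zero_mul, Complex.exp_zero, mul_one,
      Complex.re_ofReal_mul, Complex.exp_ofReal_mul_I_re]
  rw [e] at h2
  rw [h2]
  have : -(((0 + ν) ^ 2 / 2 : ℝ) : ℂ) = ((-(ν ^ 2 / 2) : ℝ) : ℂ) := by push_cast; ring
  rw [this, Complex.re_ofReal_mul, Complex.exp_ofReal_re]

lemma integral_gk_cos_sq (ν : ℝ) :
    √(2 * Real.pi) / 2 ≤ ∫ y : ℝ, gk y * Real.cos (ν * y) ^ 2 := by
  have e : (fun y : ℝ => gk y * Real.cos (ν * y) ^ 2) =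
      fun y => (1 / 2) * gk y + (1 / 2) * (gk y * Real.cos ((2 * ν) * y)) := by
    funext y
    rw [Real.cos_sq]
    have : 2 * (ν * y) = 2 * ν * y := by ring
    rw [this]; ring
  rw [e, integral_add, integral_const_mul, integral_const_mul, integral_gk, integral_gk_cos]
  · have : 0 ≤ √(2 * Real.pi) * Real.exp (-((2 * ν) ^ 2 / 2)) := by positivity
    linarith
  · exact integrable_gk.const_mul _
  · refine Integrable.const_mul ?_ _
    exact integrable_gk_mul (by fun_prop) 1 fun y => Real.abs_cos_le_one _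

end Pool.Agent.H46.Ent
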