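import Pool.Agent.H46.Ent.Law

/-! Entropy of the weighted sums (helper file for MP_1d7c3b_pr). -/

set_option autoImplicit false

open MeasureTheory ProbabilityTheory

namespace Pool.Agent.H46.Ent

lemma xlogx_upper {s : ℝ} (hs : -1 < s) : (1 + s) * Real.log (1 + s) ≤ s + s ^ 2 := by
  have h := Real.log_le_sub_one_of_pos (show 0 < 1 + s by linarith)
  nlinarith

lemma xlogx_lower {s : ℝ} (hs : -1 < s) (hs1 : s ≤ 1) :
    s + s ^ 2 / 4 ≤ (1 + s) * Real.log (1 + s) := by
  rcases le_or_gt 0 s with h0 | h0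
  · have h := Real.le_log_one_add_of_nonneg h0
    have h2 : s + s ^ 2 / 4 ≤ (1 + s) * (2 * s / (s + 2)) := by
      rw [mul_div_assoc', le_div_iff₀ (by linarith)]
      nlinarith [mul_nonneg h0 (mul_nonneg h0 (sub_nonneg.2 hs1))]
    exact h2.trans (mul_le_mul_of_nonneg_left h (by linarith))
  · have hx : 0 < 1 + s := by linarith
    have hr : √(1 + s) ≤ 1 + s / 2 - s ^ 2 / 8 := by
      apply Real.sqrt_le_iff.2
      constructor
      · nlinarith
      · nlinarith [mul_nonneg (sq_nonneg s) (neg_nonneg.2 h0.le), sq_nonneg (s ^ 2)]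
    have hsq : √(1 + s) ^ 2 = 1 + s := Real.sq_sqrt hx.le
    have hpos : 0 < √(1 + s) := Real.sqrt_pos.2 hx
    have hl : Real.log (1 + s) = 2 * Real.log (√(1 + s)) := by
      rw [Real.log_sqrt hx.le]; ring
    have h1 := Real.one_sub_inv_le_log_of_pos hpos
    have h2 : (1 + s) * (2 * (1 - (√(1 + s))⁻¹)) ≤ (1 + s) * Real.log (1 + s) := by
      rw [hl]; exact mul_le_mul_of_nonneg_left (by linarith) hx.le
    have h3 : (1 + s) * (2 * (1 - (√(1 + s))⁻¹)) = 2 * ((1 + s) - √(1 + s)) := by
      have : (1 + s) * (√(1 + s))⁻¹ = √(1 + s) := by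
        nth_rewrite 1 [← hsq]
        field_simp
      linear_combination (-2) * this
    rw [h3] at h2
    linarith

lemma continuous_xlogx {W : ℝ → ℝ} (hW : Continuous W) :
    Continuous (fun y => W y * Real.log (W y)) :=
  Real.continuous_mul_log.comp hW

/-- comparison of the entropy-like functionals -/
lemma compare {We Wd' : ℝ → ℝ} (hce : Continuous We) (hcd : Continuous Wd')
    (he : ∀ y, |We y - 1| ≤ 1 / 2) (hd : ∀ y, |Wd' y - 1| ≤ 1 / 2)
    (hint : ∫ y, gk y * We y = ∫ y, gk y * Wd' y)
    (hlt : ∫ y, gk y * (Wd' y - 1) ^ 2 < (1 / 4) * ∫ y, gk y * (We y - 1) ^ 2) :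
    ∫ y, gk y * (Wd' y * Real.log (Wd' y)) < ∫ y, gk y * (We y * Real.log (We y)) := by
  have ie1 : Integrable (fun y => gk y * We y) :=
    integrable_gk_mul hce 2 fun y => by
      have := he y
      rw [abs_le] at this ⊢
      constructor <;> linarith
  have id1 : Integrable (fun y => gk y * Wd' y) :=
    integrable_gk_mul hcd 2 fun y => by
      have := hd y
      rw [abs_le] at this ⊢
      constructor <;> linarith
  have ie2 : Integrable (fun y => gk y * (We y - 1) ^ 2) :=
    integrable_gk_mul (by fun_prop) 1 fun y => by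
      have := he y
      rw [abs_pow]
      have h0 := abs_nonneg (We y - 1)
      nlinarith
  have id2 : Integrable (fun y => gk y * (Wd' y - 1) ^ 2) :=
    integrable_gk_mul (by fun_prop) 1 fun y => by
      have := hd y
      rw [abs_pow]
      have h0 := abs_nonneg (Wd' y - 1)
      nlinarith
  have bd : ∀ s : ℝ, |s - 1| ≤ 1 / 2 → |s * Real.log s| ≤ 2 := by
    intro s hs
    rw [abs_le] at hs
    have h1 := xlogx_upper (s := s - 1) (by linarith)
    have h2 := xlogx_lower (s := s - 1) (by linarith) (by linarith)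
    have e : 1 + (s - 1) = s := by ring
    rw [e] at h1 h2
    rw [abs_le]
    constructor <;> nlinarith
  have ie3 : Integrable (fun y => gk y * (We y * Real.log (We y))) :=
    integrable_gk_mul (continuous_xlogx hce) 2 fun y => bd _ (he y)
  have id3 : Integrable (fun y => gk y * (Wd' y * Real.log (Wd' y))) :=
    integrable_gk_mul (continuous_xlogx hcd) 2 fun y => bd _ (hd y)
  have hE : (∫ y, gk y * We y) - (∫ y, gk y) + (1 / 4) * ∫ y, gk y * (We y - 1) ^ 2 ≤
      ∫ y, gk y * (We y * Real.log (We y)) := by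
    have ie4 : Integrable (fun y => gk y * We y - gk y) := ie1.sub integrable_gk
    have ie5 : Integrable (fun y => (1 / 4) * (gk y * (We y - 1) ^ 2)) := ie2.const_mul _
    rw [← integral_sub ie1 integrable_gk, ← integral_const_mul, ← integral_add ie4 ie5]
    refine integral_mono (ie4.add ie5) ie3 fun y => ?_
    have h := he y
    rw [abs_le] at h
    have h2 := xlogx_lower (s := We y - 1) (by linarith) (by linarith)
    have e : 1 + (We y - 1) = We y := by ring
    rw [e] at h2
    have := mul_le_mul_of_nonneg_left h2 (gk_nonneg y)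
    simp only at *
    linarith
  have hD : ∫ y, gk y * (Wd' y * Real.log (Wd' y)) ≤
      (∫ y, gk y * Wd' y) - (∫ y, gk y) + ∫ y, gk y * (Wd' y - 1) ^ 2 := by
    have id4 : Integrable (fun y => gk y * Wd' y - gk y) := id1.sub integrable_gk
    rw [← integral_sub id1 integrable_gk, ← integral_add id4 id2]
    refine integral_mono id3 (id4.add id2) fun y => ?_
    have h := hd y
    rw [abs_le] at h
    have h2 := xlogx_upper (s := Wd' y - 1) (by linarith)
    have e : 1 + (Wd' y - 1) = Wd' y := by ring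
    rw [e] at h2
    have := mul_le_mul_of_nonneg_left h2 (gk_nonneg y)
    simp only at *
    linarith
  linarith

/-- positivity data for the density of a weighted sum -/
structure Good {n : ℕ} (ε ω : ℝ) (d : Fin n → ℝ) : Prop where
  unit : ∑ i, d i ^ 2 = 1
  bound : ∀ y, |Wd ε ω d y - 1| ≤ 1 / 2

lemma continuous_Wd {n : ℕ} (ε ω : ℝ) (d : Fin n → ℝ) : Continuous (Wd ε ω d) :=
  continuous_tp _ _

lemma Good.pos {n : ℕ} {ε ω : ℝ} {d : Fin n → ℝ} (h : Good ε ω d) (y : ℝ) : 0 < Wd ε ω d y := by
  have := h.bound y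
  rw [abs_le] at this
  linarith

lemma Zc_pos {ε ω : ℝ} (hε : 0 ≤ ε) : 0 < Zc ε ω := by unfold Zc; positivity

lemma Kc_pos (n : ℕ) {ε ω : ℝ} (hε : 0 ≤ ε) : 0 < Kc n ε ω := by
  have := Zc_pos (ω := ω) hε
  unfold Kc; positivity

lemma fd_nonneg {ε ω : ℝ} (hε : 0 ≤ ε) (hε1 : ε ≤ 1) (x : ℝ) : 0 ≤ fd ε ω x := by
  have := Zc_pos (ω := ω) hε
  have h1 : 0 ≤ 1 + ε * Real.cos (ω * x) := by
    have := Real.neg_one_le_cos (ω * x)
    nlinarith
  have := gk_pos x
  unfold fd; positivity

section

variable {n : ℕ} {Ω : Type} [MeasureSpace Ω] [IsProbabilityMeasure (volume : Measure Ω)]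
    {ε ω : ℝ} (hε : 0 ≤ ε) (hε1 : ε ≤ 1) {X : Fin n → Ω → ℝ} (hXm : ∀ i, Measurable (X i))
    (hind : iIndepFun X (volume : Measure Ω))
    (hlaw : ∀ i, Measure.map (X i) (volume : Measure Ω) =
      volume.withDensity (fun x => ENNReal.ofReal (fd ε ω x)))

lemma q_nonneg {n : ℕ} {ε ω : ℝ} (hε : 0 ≤ ε) {d : Fin n → ℝ} (h : Good ε ω d) (y : ℝ) :
    0 ≤ Kc n ε ω * (gk y * Wd ε ω d y) := by
  have h1 := Kc_pos n (ω := ω) hε
  have h2 := gk_pos y
  have h3 := h.pos y
  positivity

include hε hε1 hXm hlaw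

omit [IsProbabilityMeasure (volume : Measure Ω)] in
lemma memLp_X (i : Fin n) : MemLp (X i) 2 (volume : Measure Ω) := by
  rw [memLp_two_iff_integrable_sq (hXm i).aestronglyMeasurable]
  have h : Integrable (fun x : ℝ => x ^ 2) (Measure.map (X i) (volume : Measure Ω)) := by
    rw [hlaw i, integrable_withDensity_iff_integrable_smul']
    · have e : (fun x : ℝ => (ENNReal.ofReal (fd ε ω x)).toReal • x ^ 2) =
          fun x => (Zc ε ω)⁻¹ * (x ^ 2 * (gk x * tp (cw ε) (fun j => ω * sv j) x)) := by
        funext x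
        rw [ENNReal.toReal_ofReal (fd_nonneg hε hε1 x), fd_eq, smul_eq_mul]
        ring
      rw [e]
      exact (integrable_sq_gk_tp _ _).const_mul _
    · have := continuous_gk
      unfold fd
      fun_prop
    · exact Filter.Eventually.of_forall fun x => ENNReal.ofReal_lt_top
  exact (integrable_map_measure (by fun_prop) (hXm i).aemeasurable).1 h

include hind

lemma integral_q {d : Fin n → ℝ} (h : Good ε ω d) :
    ∫ y, Kc n ε ω * (gk y * Wd ε ω d y) = 1 := by
  have hl := law ε ω (fd_nonneg hε hε1) X hXm hind hlaw d h.unit (q_nonneg hε h)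
  have hm : Measurable (fun w => ∑ i, d i * X i w) :=
    Finset.measurable_sum _ fun i _ => (hXm i).const_mul _
  have : IsProbabilityMeasure (Measure.map (fun w => ∑ i, d i * X i w) (volume : Measure Ω)) :=
    Measure.isProbabilityMeasure_map hm.aemeasurable
  have h1 := this.measure_univ
  rw [hl, withDensity_apply _ MeasurableSet.univ, Measure.restrict_univ] at h1
  rw [integral_eq_lintegral_of_nonneg_ae
    (Filter.Eventually.of_forall (q_nonneg hε h)), h1, ENNReal.toReal_one]
  have := continuous_gk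
  have := continuous_Wd ε ω d
  exact Continuous.aestronglyMeasurable (by fun_prop)

lemma integral_map_q {d : Fin n → ℝ} (h : Good ε ω d) (F : ℝ → ℝ) (hF : Continuous F) :
    ∫ w, F (∑ i, d i * X i w) = ∫ y, Kc n ε ω * (gk y * Wd ε ω d y) * F y := by
  have hl := law ε ω (fd_nonneg hε hε1) X hXm hind hlaw d h.unit (q_nonneg hε h)
  have hm : Measurable (fun w => ∑ i, d i * X i w) :=
    Finset.measurable_sum _ fun i _ => (hXm i).const_mul _
  rw [← integral_map hm.aemeasurable hF.aestronglyMeasurable, hl,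
    integral_withDensity_eq_integral_toReal_smul]
  · refine integral_congr_ae (Filter.Eventually.of_forall fun y => ?_)
    simp only
    rw [ENNReal.toReal_ofReal (q_nonneg hε h y), smul_eq_mul]
  · have := continuous_gk
    have := continuous_Wd ε ω d
    fun_prop
  · exact Filter.Eventually.of_forall fun x => ENNReal.ofReal_lt_top

lemma mean_q {d : Fin n → ℝ} (h : Good ε ω d) :
    ∫ w, (∑ i, d i * X i w) = 0 := by
  have h1 := integral_map_q hε hε1 hXm hind hlaw h (fun y => y) continuous_id
  rw [h1]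
  have h2 := integral_neg_eq_self (fun y => Kc n ε ω * (gk y * Wd ε ω d y) * y)
    (volume : Measure ℝ)
  have h3 : ∀ y, Kc n ε ω * (gk (-y) * Wd ε ω d (-y)) * (-y) =
      -(Kc n ε ω * (gk y * Wd ε ω d y) * y) := by
    intro y
    have e1 : gk (-y) = gk y := by unfold gk; rw [neg_sq]
    have e2 : Wd ε ω d (-y) = Wd ε ω d y := by
      unfold Wd tp
      refine Finset.sum_congr rfl fun s _ => ?_
      rw [mul_neg, Real.cos_neg]
    rw [e1, e2]; ring
  simp_rw [h3] at h2
  rw [integral_neg] at h2
  linarith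

/-- second moment of the weighted sum does not depend on the unit vector -/
lemma second_moment {d : Fin n → ℝ} (h : Good ε ω d) :
    ∫ y, y ^ 2 * (Kc n ε ω * (gk y * Wd ε ω d y)) =
      variance id (volume.withDensity (fun x => ENNReal.ofReal (fd ε ω x))) := by
  have h1 := integral_map_q hε hε1 hXm hind hlaw h (fun y => y ^ 2) (by fun_prop)
  have hm : Measurable (fun w => ∑ i, d i * X i w) :=
    Finset.measurable_sum _ fun i _ => (hXm i).const_mul _
  have h2 := variance_of_integral_eq_zero (μ := (volume : Measure Ω))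
    (X := fun w => ∑ i, d i * X i w) hm.aemeasurable (mean_q hε hε1 hXm hind hlaw h)
  have h3 : variance (fun w => ∑ i, d i * X i w) (volume : Measure Ω) =
      ∑ i, variance (fun w => d i * X i w) (volume : Measure Ω) := by
    have hh := IndepFun.variance_sum (μ := (volume : Measure Ω)) (s := Finset.univ)
      (X := fun i w => d i * X i w)
      (fun i _ => (memLp_X hε hε1 hXm hlaw i).const_mul _)
      (fun i _ j _ hij => (hind.comp (fun i x => d i * x)
        (fun i => measurable_const_mul _)).indepFun hij)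
    rw [← hh]
    congr 1
    funext w
    simp
  have h4 : ∀ i, variance (fun w => d i * X i w) (volume : Measure Ω) =
      d i ^ 2 * variance id (volume.withDensity (fun x => ENNReal.ofReal (fd ε ω x))) := by
    intro i
    rw [variance_const_mul, ← hlaw i, variance_id_map (hXm i).aemeasurable]
  rw [h3] at h2
  simp_rw [h4] at h2
  rw [← Finset.sum_mul, h.unit, one_mul] at h2
  rw [h2, h1]
  refine integral_congr_ae (Filter.Eventually.of_forall fun y => ?_)
  simp only
  ring

/-- the entropy of the weighted sum -/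
lemma entropy_formula {d : Fin n → ℝ} (h : Good ε ω d) :
    ∫ x, Real.negMulLog (((Measure.map (fun w => ∑ i, d i * X i w)
      (volume : Measure Ω)).rnDeriv volume x).toReal) =
      - Real.log (Kc n ε ω) +
      variance id (volume.withDensity (fun x => ENNReal.ofReal (fd ε ω x))) / 2 -
      Kc n ε ω * ∫ y, gk y * (Wd ε ω d y * Real.log (Wd ε ω d y)) := by
  have hl := law ε ω (fd_nonneg hε hε1) X hXm hind hlaw d h.unit (q_nonneg hε h)
  have hcq : Continuous (fun y => Kc n ε ω * (gk y * Wd ε ω d y)) := by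
    have := continuous_gk
    have := continuous_Wd ε ω d
    fun_prop
  have hae : ∀ᵐ x ∂(volume : Measure ℝ), Real.negMulLog (((Measure.map
      (fun w => ∑ i, d i * X i w) (volume : Measure Ω)).rnDeriv volume x).toReal) =
      Real.negMulLog (Kc n ε ω * (gk x * Wd ε ω d x)) := by
    rw [hl]
    filter_upwards [Measure.rnDeriv_withDensity (volume : Measure ℝ)
      (f := fun y => ENNReal.ofReal (Kc n ε ω * (gk y * Wd ε ω d y)))
      (hcq.measurable.ennreal_ofReal)] with x hx
    rw [hx, ENNReal.toReal_ofReal (q_nonneg hε h x)]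
  rw [integral_congr_ae hae]
  have hpt : ∀ x, Real.negMulLog (Kc n ε ω * (gk x * Wd ε ω d x)) =
      (- Real.log (Kc n ε ω)) * (Kc n ε ω * (gk x * Wd ε ω d x)) +
      (1 / 2) * (x ^ 2 * (Kc n ε ω * (gk x * Wd ε ω d x))) -
      Kc n ε ω * (gk x * (Wd ε ω d x * Real.log (Wd ε ω d x))) := by
    intro x
    have h1 := Kc_pos n (ω := ω) hε
    have h2 := gk_pos x
    have h3 := h.pos x
    unfold Real.negMulLog
    rw [Real.log_mul h1.ne' (by positivity), Real.log_mul h2.ne' h3.ne']
    have : Real.log (gk x) = -(x ^ 2) / 2 := by unfold gk; rw [Real.log_exp]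
    rw [this]
    ring
  simp_rw [hpt]
  have i1 : Integrable (fun x => Kc n ε ω * (gk x * Wd ε ω d x)) :=
    (integrable_gk_tp _ _).const_mul _
  have i2 : Integrable (fun x => x ^ 2 * (Kc n ε ω * (gk x * Wd ε ω d x))) := by
    have := (integrable_sq_gk_tp (am ε ω d) (fun s => ω * sd d s)).const_mul (Kc n ε ω)
    refine this.congr (Filter.Eventually.of_forall fun x => ?_)
    simp only [Wd]
    ring
  have i3 : Integrable (fun x => gk x * (Wd ε ω d x * Real.log (Wd ε ω d x))) := by
    refine integrable_gk_mul (continuous_xlogx (continuous_Wd ε ω d)) 2 fun y => ?_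
    have hs := h.bound y
    rw [abs_le] at hs
    have h1 := xlogx_upper (s := Wd ε ω d y - 1) (by linarith)
    have h2 := xlogx_lower (s := Wd ε ω d y - 1) (by linarith) (by linarith)
    have e : 1 + (Wd ε ω d y - 1) = Wd ε ω d y := by ring
    rw [e] at h1 h2
    rw [abs_le]
    constructor <;> nlinarith
  have j1 : Integrable (fun x => (- Real.log (Kc n ε ω)) *
      (Kc n ε ω * (gk x * Wd ε ω d x))) := i1.const_mul _
  have j2 : Integrable (fun x => (1 / 2) * (x ^ 2 * (Kc n ε ω * (gk x * Wd ε ω d x)))) :=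
    i2.const_mul _
  have j3 : Integrable (fun x => Kc n ε ω *
      (gk x * (Wd ε ω d x * Real.log (Wd ε ω d x)))) := i3.const_mul _
  have j4 : Integrable (fun x => (- Real.log (Kc n ε ω)) *
      (Kc n ε ω * (gk x * Wd ε ω d x)) +
      (1 / 2) * (x ^ 2 * (Kc n ε ω * (gk x * Wd ε ω d x)))) := j1.add j2
  rw [integral_sub j4 j3, integral_add j1 j2, integral_const_mul (- Real.log (Kc n ε ω)),
    integral_const_mul (1 / 2), integral_const_mul (Kc n ε ω) (fun x => gk x *
      (Wd ε ω d x * Real.log (Wd ε ω d x))), integral_q hε hε1 hXm hind hlaw h,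
    second_moment hε hε1 hXm hind hlaw h]
  ring

/-- strict comparison of entropies -/
theorem entropy_lt {d e : Fin n → ℝ} (hgd : Good ε ω d) (hge : Good ε ω e)
    (hlt : ∫ y, gk y * (Wd ε ω d y - 1) ^ 2 < (1 / 4) * ∫ y, gk y * (Wd ε ω e y - 1) ^ 2) :
    ∫ x, Real.negMulLog (((Measure.map (fun w => ∑ i, e i * X i w)
      (volume : Measure Ω)).rnDeriv volume x).toReal) <
    ∫ x, Real.negMulLog (((Measure.map (fun w => ∑ i, d i * X i w)
      (volume : Measure Ω)).rnDeriv volume x).toReal) := by
  rw [entropy_formula hε hε1 hXm hind hlaw hgd, entropy_formula hε hε1 hXm hind hlaw hge]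
  have hK := Kc_pos n (ω := ω) hε
  have hint : ∫ y, gk y * Wd ε ω e y = ∫ y, gk y * Wd ε ω d y := by
    have h1 := integral_q hε hε1 hXm hind hlaw hgd
    have h2 := integral_q hε hε1 hXm hind hlaw hge
    rw [integral_const_mul] at h1 h2
    have : Kc n ε ω * ∫ y, gk y * Wd ε ω e y = Kc n ε ω * ∫ y, gk y * Wd ε ω d y := by
      rw [h1, h2]
    exact mul_left_cancel₀ hK.ne' this
  have := compare (continuous_Wd ε ω e) (continuous_Wd ε ω d) hge.bound hgd.bound hint hlt
  have := mul_lt_mul_of_pos_left this hK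
  linarith

end

end Pool.Agent.H46.Ent
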