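import Mathlib

/-! Existence of i.i.d. families with a given density (helper file for MP_1d7c3b_pr). -/

set_option autoImplicit false

open MeasureTheory ProbabilityTheory

namespace Pool.Agent.H46.Ent

theorem exists_iid (n : ℕ) {f : ℝ → ℝ} (hf0 : ∀ x, 0 ≤ f x) (hfi : Integrable f)
    (hf1 : ∫ x, f x = 1) :
    ∃ (Ω : Type) (_ : MeasureSpace Ω) (_ : IsProbabilityMeasure (volume : Measure Ω))
      (X : Fin n → Ω → ℝ), (∀ i, Measurable (X i)) ∧
      iIndepFun X (volume : Measure Ω) ∧
      ∀ i, Measure.map (X i) (volume : Measure Ω) =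
        volume.withDensity (fun x => ENNReal.ofReal (f x)) := by
  have hp : IsProbabilityMeasure
      ((volume : Measure ℝ).withDensity (fun x => ENNReal.ofReal (f x))) := by
    constructor
    rw [withDensity_apply _ MeasurableSet.univ, Measure.restrict_univ,
      ← ofReal_integral_eq_lintegral_ofReal hfi (Filter.Eventually.of_forall hf0), hf1,
      ENNReal.ofReal_one]
  refine ⟨Fin n → ℝ, ⟨Measure.pi fun _ => volume.withDensity (fun x => ENNReal.ofReal (f x))⟩,
    ?_, fun i w => w i, fun i => measurable_pi_apply i, ?_, ?_⟩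
  · exact Measure.pi.instIsProbabilityMeasure _
  · exact iIndepFun_pi (X := fun _ x => x) (fun _ => aemeasurable_id)
  · intro i
    exact (measurePreserving_eval (fun _ : Fin n =>
      (volume : Measure ℝ).withDensity (fun x => ENNReal.ofReal (f x))) i).map_eq

end Pool.Agent.H46.Ent
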