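import Pool.Agent.H46.Ent.Basic

/-! Law of weighted sums of i.i.d. variables with density `Z⁻¹ exp(-x²/2)(1+ε cos ωx)`
(helper file for MP_1d7c3b_pr). -/

set_option autoImplicit false

open MeasureTheory ProbabilityTheory

namespace Pool.Agent.H46.Ent

/-- Cosine polynomial. -/
noncomputable def tp {J : Type} [Fintype J] (a ν : J → ℝ) (y : ℝ) : ℝ :=
  ∑ j, a j * Real.cos (ν j * y)

lemma continuous_tp {J : Type} [Fintype J] (a ν : J → ℝ) : Continuous (tp a ν) := by
  unfold tp; fun_prop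

lemma abs_tp_le {J : Type} [Fintype J] (a ν : J → ℝ) (y : ℝ) : |tp a ν y| ≤ ∑ j, |a j| := by
  unfold tp
  refine (Finset.abs_sum_le_sum_abs _ _).trans (Finset.sum_le_sum fun j _ => ?_)
  rw [abs_mul]
  exact mul_le_of_le_one_right (abs_nonneg _) (Real.abs_cos_le_one _)

lemma integrable_gk_tp {J : Type} [Fintype J] (a ν : J → ℝ) :
    Integrable (fun y => gk y * tp a ν y) :=
  integrable_gk_mul (continuous_tp a ν) _ (abs_tp_le a ν)

lemma integrable_sq_gk_tp {J : Type} [Fintype J] (a ν : J → ℝ) :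
    Integrable (fun y => y ^ 2 * (gk y * tp a ν y)) :=
  integrable_sq_gk_mul (continuous_tp a ν) _ (abs_tp_le a ν)

lemma ofReal_tp {J : Type} [Fintype J] (a ν : J → ℝ) (y : ℝ)
    (hsin : ∑ j, a j * Real.sin (ν j * y) = 0) :
    ((tp a ν y : ℝ) : ℂ) = ∑ j, (a j : ℂ) * Complex.exp (Complex.I * ν j * y) := by
  have e : ∀ j, (a j : ℂ) * Complex.exp (Complex.I * ν j * y) =
      ((a j * Real.cos (ν j * y) : ℝ) : ℂ) + ((a j * Real.sin (ν j * y) : ℝ) : ℂ) * Complex.I := by
    intro j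
    have : Complex.I * ν j * y = ((ν j * y : ℝ) : ℂ) * Complex.I := by push_cast; ring
    rw [this, Complex.exp_mul_I, ← Complex.ofReal_cos, ← Complex.ofReal_sin]
    push_cast
    ring
  simp_rw [e]
  rw [Finset.sum_add_distrib, ← Finset.sum_mul, ← Complex.ofReal_sum, ← Complex.ofReal_sum, hsin]
  simp [tp]

lemma charFun_tp {J : Type} [Fintype J] (K : ℝ) (a ν : J → ℝ)
    (hsin : ∀ y, ∑ j, a j * Real.sin (ν j * y) = 0)
    (hpos : ∀ y, 0 ≤ K * (gk y * tp a ν y)) (t : ℝ) :
    charFun (volume.withDensity (fun y => ENNReal.ofReal (K * (gk y * tp a ν y)))) t =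
      K * (√(2 * Real.pi) : ℝ) * ∑ j, (a j : ℂ) * Complex.exp (-(((t + ν j) ^ 2 / 2 : ℝ) : ℂ)) := by
  rw [charFun_apply_real]
  rw [integral_withDensity_eq_integral_toReal_smul]
  · have e : (fun x : ℝ => (ENNReal.ofReal (K * (gk x * tp a ν x))).toReal •
        Complex.exp (↑t * ↑x * Complex.I)) =
        fun x : ℝ => ∑ j, (K * a j : ℂ) * ((gk x : ℂ) * Complex.exp (Complex.I * ν j * x) *
          Complex.exp (t * x * Complex.I)) := by
      funext x
      rw [ENNReal.toReal_ofReal (hpos x), Complex.real_smul, Complex.ofReal_mul,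
        Complex.ofReal_mul, ofReal_tp a ν x (hsin x), Finset.mul_sum, Finset.mul_sum,
        Finset.sum_mul]
      refine Finset.sum_congr rfl fun j _ => ?_
      ring
    rw [e, integral_finsetSum]
    · simp_rw [integral_const_mul, integral_gk_cexp]
      rw [Finset.mul_sum]
      refine Finset.sum_congr rfl fun j _ => ?_
      ring
    · intro j _
      exact (integrable_gk_cexp (ν j) t).const_mul _
  · have := continuous_tp a ν
    have := continuous_gk
    fun_prop
  · exact Filter.Eventually.of_forall fun x => ENNReal.ofReal_lt_top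

/-- sign values -/
noncomputable def sv : Fin 3 → ℝ := ![0, 1, -1]

/-- weights -/
noncomputable def cw (ε : ℝ) : Fin 3 → ℝ := ![1, ε / 2, ε / 2]

/-- normalising constant of `f` -/
noncomputable def Zc (ε ω : ℝ) : ℝ := √(2 * Real.pi) * (1 + ε * Real.exp (-(ω ^ 2 / 2)))

/-- The density -/
noncomputable def fd (ε ω : ℝ) (x : ℝ) : ℝ := (Zc ε ω)⁻¹ * (gk x * (1 + ε * Real.cos (ω * x)))

lemma fd_eq (ε ω x : ℝ) :
    fd ε ω x = (Zc ε ω)⁻¹ * (gk x * tp (cw ε) (fun j => ω * sv j) x) := by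
  unfold fd tp
  rw [Fin.sum_univ_three]
  simp [cw, sv]
  left; left
  ring

lemma sin_sum3 (ε ω y : ℝ) : ∑ j, cw ε j * Real.sin (ω * sv j * y) = 0 := by
  rw [Fin.sum_univ_three]
  simp [cw, sv]

variable {n : ℕ}

/-- squared norm of a sign vector -/
noncomputable def s2 (s : Fin n → Fin 3) : ℝ := ∑ i, sv (s i) ^ 2

/-- inner product with the coefficient vector -/
noncomputable def sd (d : Fin n → ℝ) (s : Fin n → Fin 3) : ℝ := ∑ i, sv (s i) * d i

/-- amplitude -/
noncomputable def am (ε ω : ℝ) (d : Fin n → ℝ) (s : Fin n → Fin 3) : ℝ :=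
  (∏ i, cw ε (s i)) * Real.exp (-(ω ^ 2 * (s2 s - sd d s ^ 2) / 2))

/-- constant of the density of the weighted sum -/
noncomputable def Kc (n : ℕ) (ε ω : ℝ) : ℝ := ((Zc ε ω)⁻¹ * √(2 * Real.pi)) ^ n / √(2 * Real.pi)

/-- The relative density of the weighted sum. -/
noncomputable def Wd (ε ω : ℝ) (d : Fin n → ℝ) (y : ℝ) : ℝ :=
  tp (am ε ω d) (fun s => ω * sd d s) y

/-- the flip of sign indices -/
def flip3 : Fin 3 ≃ Fin 3 := Equiv.swap 1 2

lemma sv_flip (j : Fin 3) : sv (flip3 j) = - sv j := by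
  fin_cases j
  · have : flip3 0 = 0 := by decide
    show sv (flip3 0) = - sv 0
    rw [this]; simp [sv]
  · have : flip3 1 = 2 := by decide
    show sv (flip3 1) = - sv 1
    rw [this]; simp [sv]
  · have : flip3 2 = 1 := by decide
    show sv (flip3 2) = - sv 2
    rw [this]; simp [sv]

lemma cw_flip (ε : ℝ) (j : Fin 3) : cw ε (flip3 j) = cw ε j := by
  fin_cases j
  · have : flip3 0 = 0 := by decide
    show cw ε (flip3 0) = cw ε 0
    rw [this]
  · have : flip3 1 = 2 := by decide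
    show cw ε (flip3 1) = cw ε 1
    rw [this]; simp [cw]
  · have : flip3 2 = 1 := by decide
    show cw ε (flip3 2) = cw ε 2
    rw [this]; simp [cw]

lemma sin_sum (ε ω : ℝ) (d : Fin n → ℝ) (y : ℝ) :
    ∑ s, am ε ω d s * Real.sin (ω * sd d s * y) = 0 := by
  have h : ∑ s, am ε ω d s * Real.sin (ω * sd d s * y) =
      ∑ s, -(am ε ω d s * Real.sin (ω * sd d s * y)) := by
    rw [← Equiv.sum_comp (Equiv.arrowCongr (Equiv.refl (Fin n)) flip3)]
    refine Finset.sum_congr rfl fun s _ => ?_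
    have e1 : sd d ((Equiv.arrowCongr (Equiv.refl (Fin n)) flip3) s) = - sd d s := by
      unfold sd
      rw [← Finset.sum_neg_distrib]
      refine Finset.sum_congr rfl fun i _ => ?_
      simp [Equiv.arrowCongr, sv_flip]
    have e2 : s2 ((Equiv.arrowCongr (Equiv.refl (Fin n)) flip3) s) = s2 s := by
      unfold s2
      refine Finset.sum_congr rfl fun i _ => ?_
      simp [Equiv.arrowCongr, sv_flip]
    have e3 : ∏ i, cw ε (((Equiv.arrowCongr (Equiv.refl (Fin n)) flip3) s) i) =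
        ∏ i, cw ε (s i) := by
      refine Finset.prod_congr rfl fun i _ => ?_
      simp [Equiv.arrowCongr, cw_flip]
    unfold am
    rw [e1, e2, e3]
    have : ω * -sd d s * y = -(ω * sd d s * y) := by ring
    rw [this, Real.sin_neg, neg_sq]
    ring
  rw [Finset.sum_neg_distrib] at h
  linarith

/-- The law of the weighted sum. -/
theorem law {Ω : Type} [MeasureSpace Ω] [IsProbabilityMeasure (volume : Measure Ω)]
    (ε ω : ℝ) (hfpos : ∀ x, 0 ≤ fd ε ω x) (X : Fin n → Ω → ℝ) (hXm : ∀ i, Measurable (X i))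
    (hind : iIndepFun X (volume : Measure Ω))
    (hlaw : ∀ i, Measure.map (X i) (volume : Measure Ω) =
      volume.withDensity (fun x => ENNReal.ofReal (fd ε ω x)))
    (d : Fin n → ℝ) (hd : ∑ i, d i ^ 2 = 1)
    (hW : ∀ y, 0 ≤ Kc n ε ω * (gk y * Wd ε ω d y)) :
    Measure.map (fun w => ∑ i, d i * X i w) (volume : Measure Ω) =
      volume.withDensity (fun y => ENNReal.ofReal (Kc n ε ω * (gk y * Wd ε ω d y))) := by
  have hm : ∀ i, Measurable (fun w => d i * X i w) := fun i => (hXm i).const_mul _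
  have : IsFiniteMeasure (volume.withDensity
      (fun y => ENNReal.ofReal (Kc n ε ω * (gk y * Wd ε ω d y)))) := by
    refine isFiniteMeasure_withDensity_ofReal ?_
    exact ((integrable_gk_tp (am ε ω d) (fun s => ω * sd d s)).const_mul _).2
  have : IsProbabilityMeasure (Measure.map (fun w => ∑ i, d i * X i w) (volume : Measure Ω)) :=
    Measure.isProbabilityMeasure_map
      (Finset.measurable_sum _ fun i _ => hm i).aemeasurable
  apply Measure.ext_of_charFun
  funext t
  have hind' : iIndepFun (fun i w => d i * X i w) (volume : Measure Ω) :=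
    hind.comp (fun i x => d i * x) (fun i => measurable_const_mul _)
  rw [hind'.charFun_map_fun_sum_eq_prod (fun i => (hm i).aemeasurable), Finset.prod_apply]
  have h1 : ∀ i, charFun (Measure.map (fun w => d i * X i w) (volume : Measure Ω)) t =
      ((Zc ε ω)⁻¹ * √(2 * Real.pi) : ℝ) *
        ∑ j, (cw ε j : ℂ) * Complex.exp (-(((d i * t + ω * sv j) ^ 2 / 2 : ℝ) : ℂ)) := by
    intro i
    rw [charFun_map_mul_comp (hXm i).aemeasurable, hlaw i]
    have e : (fun x => ENNReal.ofReal (fd ε ω x)) = fun x => ENNReal.ofReal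
        ((Zc ε ω)⁻¹ * (gk x * tp (cw ε) (fun j => ω * sv j) x)) := by
      funext x; rw [fd_eq]
    rw [e, charFun_tp _ _ _ (sin_sum3 ε ω) (fun y => by rw [← fd_eq]; exact hfpos y)]
    push_cast
    ring
  simp_rw [h1]
  rw [Finset.prod_mul_distrib, Finset.prod_const, Finset.card_univ, Fintype.card_fin,
    Finset.prod_univ_sum]
  rw [show (fun y => ENNReal.ofReal (Kc n ε ω * (gk y * Wd ε ω d y))) =
    fun y => ENNReal.ofReal (Kc n ε ω * (gk y * tp (am ε ω d) (fun s => ω * sd d s) y)) from rfl]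
  rw [charFun_tp _ _ _ (sin_sum ε ω d) hW]
  have hK : ((Kc n ε ω : ℝ) : ℂ) * ((√(2 * Real.pi) : ℝ) : ℂ) =
      (((Zc ε ω)⁻¹ * √(2 * Real.pi) : ℝ) : ℂ) ^ n := by
    rw [← Complex.ofReal_mul, ← Complex.ofReal_pow]
    congr 1
    unfold Kc
    have : √(2 * Real.pi) ≠ 0 := by positivity
    field_simp
  rw [hK]
  congr 1
  rw [Fintype.piFinset_univ]
  refine Finset.sum_congr rfl fun s _ => ?_
  rw [Finset.prod_mul_distrib, ← Complex.exp_sum]
  unfold am
  rw [Complex.ofReal_mul, Complex.ofReal_prod, mul_assoc, Complex.ofReal_exp, ← Complex.exp_add]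
  congr 2
  rw [Finset.sum_neg_distrib, ← Complex.ofReal_sum, ← Complex.ofReal_neg, ← Complex.ofReal_neg,
    ← Complex.ofReal_add]
  congr 1
  have h2 : ∑ i, (d i * t + ω * sv (s i)) ^ 2 / 2 =
      (t ^ 2 * ∑ i, d i ^ 2 + 2 * t * ω * sd d s + ω ^ 2 * s2 s) / 2 := by
    unfold sd s2
    rw [Finset.mul_sum, Finset.mul_sum, Finset.mul_sum, ← Finset.sum_add_distrib,
      ← Finset.sum_add_distrib, Finset.sum_div]
    refine Finset.sum_congr rfl fun i _ => ?_
    ring
  rw [h2, hd]
  ring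

end Pool.Agent.H46.Ent
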