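import Pool.Agent.H46.Ent.Entropy

/-! Log-concavity of the density (helper file for MP_1d7c3b_pr). -/

set_option autoImplicit false

open MeasureTheory ProbabilityTheory

namespace Pool.Agent.H46.Ent

/-- the perturbation size -/
noncomputable def ep (ω : ℝ) : ℝ := 1 / (1 + ω ^ 2)

lemma ep_pos (ω : ℝ) : 0 < ep ω := by unfold ep; positivity

lemma ep_le_one (ω : ℝ) : ep ω ≤ 1 := by
  unfold ep
  rw [div_le_one (by positivity)]
  nlinarith [sq_nonneg ω]

lemma ep_lt_one {ω : ℝ} (hω : 0 < ω) : ep ω < 1 := by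
  unfold ep
  rw [div_lt_one (by positivity)]
  nlinarith [sq_nonneg ω, pow_pos hω 2]

lemma ep_mul (ω : ℝ) : ep ω * ω ^ 2 = 1 - ep ω := by
  unfold ep
  have : (1 + ω ^ 2) ≠ 0 := by positivity
  field_simp
  ring

lemma one_add_pos {ω : ℝ} (hω : 0 < ω) (x : ℝ) : 0 < 1 + ep ω * Real.cos (ω * x) := by
  have h1 := Real.neg_one_le_cos (ω * x)
  have h2 := ep_lt_one hω
  have h3 := ep_pos ω
  nlinarith

/-- convex potential -/
noncomputable def psi (ω : ℝ) (x : ℝ) : ℝ :=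
  x ^ 2 / 2 - Real.log (1 + ep ω * Real.cos (ω * x))

noncomputable def psi' (ω : ℝ) (x : ℝ) : ℝ :=
  x + ep ω * ω * Real.sin (ω * x) / (1 + ep ω * Real.cos (ω * x))

lemma hasDerivAt_psi {ω : ℝ} (hω : 0 < ω) (x : ℝ) : HasDerivAt (psi ω) (psi' ω x) x := by
  have h0 := one_add_pos hω x
  have h1 : HasDerivAt (fun x : ℝ => ω * x) ω x := by
    simpa using (hasDerivAt_id x).const_mul ω
  have h2 : HasDerivAt (fun x : ℝ => 1 + ep ω * Real.cos (ω * x))
      (ep ω * (-Real.sin (ω * x) * ω)) x :=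
    ((h1.cos).const_mul (ep ω)).const_add 1
  have h3 := h2.log h0.ne'
  have h4 : HasDerivAt (fun x : ℝ => x ^ 2 / 2) x x := by
    have := (hasDerivAt_pow 2 x).div_const 2
    simpa using this
  have h5 := h4.sub h3
  refine h5.congr_deriv ?_
  unfold psi'
  field_simp
  ring

lemma hasDerivAt_psi' {ω : ℝ} (hω : 0 < ω) (x : ℝ) :
    HasDerivAt (psi' ω) (1 + ep ω * ω ^ 2 * (Real.cos (ω * x) + ep ω) /
      (1 + ep ω * Real.cos (ω * x)) ^ 2) x := by
  have h0 := one_add_pos hω x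
  have h1 : HasDerivAt (fun x : ℝ => ω * x) ω x := by
    simpa using (hasDerivAt_id x).const_mul ω
  have h2 : HasDerivAt (fun x : ℝ => 1 + ep ω * Real.cos (ω * x))
      (ep ω * (-Real.sin (ω * x) * ω)) x :=
    ((h1.cos).const_mul (ep ω)).const_add 1
  have h3 : HasDerivAt (fun x : ℝ => ep ω * ω * Real.sin (ω * x))
      (ep ω * ω * (Real.cos (ω * x) * ω)) x := (h1.sin).const_mul _
  have h4 := (hasDerivAt_id x).add (h3.div h2 h0.ne')
  refine h4.congr_deriv ?_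
  have hs := Real.sin_sq_add_cos_sq (ω * x)
  have hs' : Real.sin (ω * x) ^ 2 = 1 - Real.cos (ω * x) ^ 2 := by linarith
  field_simp
  rw [hs']
  ring

lemma psi''_nonneg {ω : ℝ} (hω : 0 < ω) (x : ℝ) :
    0 ≤ 1 + ep ω * ω ^ 2 * (Real.cos (ω * x) + ep ω) /
      (1 + ep ω * Real.cos (ω * x)) ^ 2 := by
  have h0 := one_add_pos hω x
  have h1 := Real.neg_one_le_cos (ω * x)
  have h2 := ep_lt_one hω
  have h3 := ep_pos ω
  rw [ep_mul]
  have h4 : 0 ≤ (1 + ep ω * Real.cos (ω * x)) ^ 2 +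
      (1 - ep ω) * (Real.cos (ω * x) + ep ω) := by
    set c := Real.cos (ω * x)
    set e := ep ω
    have : (1 + e * c) ^ 2 + (1 - e) * (c + e) =
      (c + 1) * (2 * e + (1 - e) - 2 * e ^ 2 + e ^ 2 * (c + 1)) := by ring
    rw [this]
    apply mul_nonneg (by linarith)
    have h5 : 0 ≤ e ^ 2 * (c + 1) := mul_nonneg (sq_nonneg e) (by linarith)
    nlinarith
  have h5 : 1 + (1 - ep ω) * (Real.cos (ω * x) + ep ω) /
      (1 + ep ω * Real.cos (ω * x)) ^ 2 = ((1 + ep ω * Real.cos (ω * x)) ^ 2 +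
      (1 - ep ω) * (Real.cos (ω * x) + ep ω)) / (1 + ep ω * Real.cos (ω * x)) ^ 2 := by
    field_simp
  rw [h5]
  positivity

lemma convex_psi {ω : ℝ} (hω : 0 < ω) : ConvexOn ℝ Set.univ (psi ω) := by
  have hd : deriv (psi ω) = psi' ω := funext fun x => (hasDerivAt_psi hω x).deriv
  have hmono : Monotone (psi' ω) := by
    apply monotone_of_deriv_nonneg
    · exact fun x => (hasDerivAt_psi' hω x).differentiableAt
    · intro x
      rw [(hasDerivAt_psi' hω x).deriv]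
      exact psi''_nonneg hω x
  apply Monotone.convexOn_univ_of_deriv
  · exact fun x => (hasDerivAt_psi hω x).differentiableAt
  · rw [hd]; exact hmono

lemma fd_exp {ω : ℝ} (hω : 0 < ω) (x : ℝ) :
    fd (ep ω) ω x = (Zc (ep ω) ω)⁻¹ * Real.exp (- psi ω x) := by
  have h0 := one_add_pos hω x
  unfold fd psi gk
  rw [neg_sub, Real.exp_sub, Real.exp_log h0, neg_div, Real.exp_neg]
  field_simp

lemma fd_pos {ω : ℝ} (hω : 0 < ω) (x : ℝ) : 0 < fd (ep ω) ω x := by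
  rw [fd_exp hω]
  have := Zc_pos (ω := ω) (ep_pos ω).le
  positivity

lemma fd_even (ε ω x : ℝ) : fd ε ω (-x) = fd ε ω x := by
  unfold fd gk
  rw [neg_sq, mul_neg, Real.cos_neg]

theorem fd_logconcave {ω : ℝ} (hω : 0 < ω) (x y t : ℝ) (ht : 0 ≤ t) (ht1 : t ≤ 1) :
    fd (ep ω) ω x ^ t * fd (ep ω) ω y ^ (1 - t) ≤ fd (ep ω) ω (t * x + (1 - t) * y) := by
  have hZ : 0 < (Zc (ep ω) ω)⁻¹ := inv_pos.2 (Zc_pos (ω := ω) (ep_pos ω).le)
  have hc := (convex_psi hω).2 (Set.mem_univ x) (Set.mem_univ y) ht (sub_nonneg.2 ht1)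
    (by ring)
  simp only [smul_eq_mul] at hc
  rw [fd_exp hω, fd_exp hω, fd_exp hω, Real.mul_rpow hZ.le (Real.exp_pos _).le,
    Real.mul_rpow hZ.le (Real.exp_pos _).le, ← Real.exp_mul, ← Real.exp_mul]
  have e1 : (Zc (ep ω) ω)⁻¹ ^ t * Real.exp (-psi ω x * t) *
      ((Zc (ep ω) ω)⁻¹ ^ (1 - t) * Real.exp (-psi ω y * (1 - t))) =
      ((Zc (ep ω) ω)⁻¹ ^ t * (Zc (ep ω) ω)⁻¹ ^ (1 - t)) *
      Real.exp (-psi ω x * t + -psi ω y * (1 - t)) := by
    rw [Real.exp_add]; ring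
  rw [e1, ← Real.rpow_add hZ]
  have e2 : t + (1 - t) = 1 := by ring
  rw [e2, Real.rpow_one]
  apply mul_le_mul_of_nonneg_left _ hZ.le
  apply Real.exp_le_exp.2
  linarith

lemma fd_integrable (ε ω : ℝ) : Integrable (fd ε ω) := by
  have e : fd ε ω = fun x => (Zc ε ω)⁻¹ * (gk x * tp (cw ε) (fun j => ω * sv j) x) :=
    funext fun x => fd_eq ε ω x
  rw [e]
  exact (integrable_gk_tp _ _).const_mul _

lemma fd_integral {ε : ℝ} (ω : ℝ) (hε : 0 ≤ ε) : ∫ x, fd ε ω x = 1 := by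
  unfold fd
  rw [integral_const_mul]
  have e : (fun x : ℝ => gk x * (1 + ε * Real.cos (ω * x))) =
      fun x => gk x + ε * (gk x * Real.cos (ω * x)) := by funext x; ring
  rw [e, integral_add integrable_gk, integral_const_mul, integral_gk, integral_gk_cos]
  · have := Zc_pos (ω := ω) hε
    have h2 : √(2 * Real.pi) + ε * (√(2 * Real.pi) * Real.exp (-(ω ^ 2 / 2))) = Zc ε ω := by
      unfold Zc; ring
    rw [h2]
    exact inv_mul_cancel₀ this.ne'
  · exact (integrable_gk_mul (by fun_prop) 1 fun y => Real.abs_cos_le_one _).const_mul _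

end Pool.Agent.H46.Ent
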