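import Pool.Agent.H46.Ent.Asymp
import Pool.Agent.H46.Ent.LogConc

/-! Choice of the frequency (helper file for MP_1d7c3b_pr). -/

set_option autoImplicit false

open MeasureTheory ProbabilityTheory

namespace Pool.Agent.H46.Ent

variable {n : ℕ}

/-- exponentially small beats polynomially small -/
lemma exists_freq (n : ℕ) {κ : ℝ} (hκ : 0 < κ) :
    ∃ ω : ℝ, 1 ≤ ω ∧
      5 * (3 ^ n * Real.exp (-(ω ^ 2 * κ / 2))) ^ 2 < (ep ω / 2) ^ (2 * n) := by
  -- in terms of y = κ (1 + ω^2)
  have ht := Real.tendsto_pow_mul_exp_neg_atTop_nhds_zero (2 * n)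
  have hC : 0 < (5 * (3 ^ n) ^ 2 * 2 ^ (2 * n) * Real.exp κ / κ ^ (2 * n))⁻¹ := by positivity
  have hev := (ht.eventually (gt_mem_nhds hC)).and
    (Filter.eventually_ge_atTop (2 * κ))
  obtain ⟨y, hy, hy2⟩ := hev.exists
  have hx1 : 1 ≤ y / κ - 1 := by
    rw [le_sub_iff_add_le, le_div_iff₀ hκ]
    linarith
  refine ⟨√(y / κ - 1), ?_, ?_⟩
  · rw [Real.le_sqrt' one_pos]
    simpa using hx1
  · have hsq : √(y / κ - 1) ^ 2 = y / κ - 1 := Real.sq_sqrt (by linarith)
    have hep : ep (√(y / κ - 1)) = κ / y := by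
      unfold ep
      rw [hsq]
      have hyp : 0 < y := by nlinarith
      have e0 : 1 + (y / κ - 1) = y / κ := by ring
      rw [e0, one_div, inv_div]
    have hyp : 0 < y := by nlinarith
    rw [hep, hsq, mul_pow, ← Real.exp_nat_mul]
    have e1 : ((2 : ℕ) : ℝ) * -((y / κ - 1) * κ / 2) = κ + -y := by
      field_simp
      push_cast
      ring
    rw [e1, Real.exp_add]
    rw [lt_inv_comm₀ (by positivity) (by positivity)] at hy
    have e2 : (κ / y / 2) ^ (2 * n) = κ ^ (2 * n) / (y ^ (2 * n) * 2 ^ (2 * n)) := by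
      rw [div_pow, div_pow]
      field_simp
    rw [e2, lt_div_iff₀ (by positivity)]
    have hy3 : (5 * (3 ^ n) ^ 2 * 2 ^ (2 * n) * Real.exp κ / κ ^ (2 * n)) *
        (y ^ (2 * n) * Real.exp (-y)) < 1 := by
      calc (5 * (3 ^ n) ^ 2 * 2 ^ (2 * n) * Real.exp κ / κ ^ (2 * n)) *
        (y ^ (2 * n) * Real.exp (-y)) < (y ^ (2 * n) * Real.exp (-y))⁻¹ *
        (y ^ (2 * n) * Real.exp (-y)) := mul_lt_mul_of_pos_right hy (by positivity)
        _ = 1 := inv_mul_cancel₀ (by positivity)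
    rw [div_mul_eq_mul_div, div_lt_one (by positivity)] at hy3
    calc _ = 5 * (3 ^ n) ^ 2 * 2 ^ (2 * n) * Real.exp κ * (y ^ (2 * n) * Real.exp (-y)) := by
          ring
      _ < _ := hy3

/-- the key analytic statement -/
theorem exists_good (hn : 2 ≤ n) {d : Fin n → ℝ} (hd : ∑ i, d i ^ 2 = 1) (hflat : ¬ Flat d) :
    ∃ ω : ℝ, 1 ≤ ω ∧ Good (ep ω) ω d ∧ Good (ep ω) ω (ev n) ∧
      ∫ y, gk y * (Wd (ep ω) ω d y - 1) ^ 2 <
        (1 / 4) * ∫ y, gk y * (Wd (ep ω) ω (ev n) y - 1) ^ 2 := by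
  have hn0 : 0 < n := by omega
  obtain ⟨κ1, hκ1, hk1⟩ := exists_kappa (fun s => s ≠ zv n) (fun s => s2 s - sd d s ^ 2)
    (fun s hs => gap_pos hd hflat hs)
  obtain ⟨κ2, hκ2, hk2⟩ := exists_kappa (fun s => s ≠ zv n ∧ s ≠ pv n ∧ s ≠ mv n)
    (fun s => s2 s - sd (ev n) s ^ 2) (fun s hs => gap_pos_e hn0 hs.1 hs.2.1 hs.2.2)
  obtain ⟨ω, hω1, hω⟩ := exists_freq n (lt_min hκ1 hκ2)
  set κ := min κ1 κ2 with hκdef
  set ε := ep ω with hεdef
  set E := 3 ^ n * Real.exp (-(ω ^ 2 * κ / 2)) with hE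
  have hE0 : 0 < E := by positivity
  have hε0 : 0 < ε := ep_pos ω
  have hε2 : ε ≤ 1 / 2 := by
    rw [hεdef]; unfold ep
    rw [div_le_div_iff₀ (by positivity) (by norm_num)]
    nlinarith
  have hε1 : ε ≤ 1 := by linarith
  have hdb : ∀ y, |Wd ε ω d y - 1| ≤ E := fun y => by
    rw [Wd_eq]
    exact abs_ps_le hε0.le hε1 d _ (fun s hs =>
      (min_le_left _ _).trans (hk1 s (Finset.ne_of_mem_erase hs))) y
  have hrb : ∀ y, |ps ε ω (ev n) (rest n) y| ≤ E := fun y =>
    abs_ps_le hε0.le hε1 (ev n) _ (fun s hs => by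
      unfold rest at hs
      rw [Finset.mem_erase, Finset.mem_erase, Finset.mem_erase] at hs
      exact (min_le_right _ _).trans (hk2 s ⟨hs.2.2.1, hs.2.1, hs.1⟩)) y
  -- size of the main term
  set A := (ε / 2) ^ n with hA
  have hA0 : 0 < A := by positivity
  have hA2 : A ≤ 1 / 16 := by
    calc A ≤ (1 / 4) ^ n := pow_le_pow_left₀ (by positivity) (by linarith) n
      _ ≤ (1 / 4) ^ 2 := pow_le_pow_of_le_one (by norm_num) (by norm_num) hn
      _ = 1 / 16 := by norm_num
  have hAE : 5 * E ^ 2 < A ^ 2 := by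
    have : (ε / 2) ^ (2 * n) = A ^ 2 := by rw [hA, ← pow_mul, mul_comm]
    rw [← this]; exact hω
  have hEA : E < A := by
    by_contra h
    push Not at h
    nlinarith
  have hWe : ∀ y, Wd ε ω (ev n) y - 1 = 2 * A * Real.cos (ω * √n * y) +
      ps ε ω (ev n) (rest n) y := fun y => We_eq ε ω hn0 y
  refine ⟨ω, hω1, ⟨hd, fun y => (hdb y).trans (by linarith)⟩, ⟨ev_unit hn0, fun y => ?_⟩, ?_⟩
  · rw [hWe y]
    have h1 : |2 * A * Real.cos (ω * √n * y)| ≤ 2 * A := by
      rw [abs_mul, abs_of_pos (by linarith : 0 < 2 * A)]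
      exact mul_le_of_le_one_right (by linarith) (Real.abs_cos_le_one _)
    have h2 := hrb y
    calc |2 * A * Real.cos (ω * √n * y) + ps ε ω (ev n) (rest n) y|
        ≤ |2 * A * Real.cos (ω * √n * y)| + |ps ε ω (ev n) (rest n) y| := abs_add_le _ _
      _ ≤ 2 * A + E := add_le_add h1 h2
      _ ≤ 1 / 2 := by linarith
  · have hsqrt : 0 < √(2 * Real.pi) := by positivity
    -- upper bound for d
    have hc1 := continuous_Wd ε ω d
    have hc2 := continuous_ps ε ω (ev n) (rest n)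
    have hc3 := continuous_Wd ε ω (ev n)
    have hU : ∫ y, gk y * (Wd ε ω d y - 1) ^ 2 ≤ E ^ 2 * √(2 * Real.pi) := by
      rw [← integral_gk, ← integral_const_mul]
      refine integral_mono (integrable_gk_mul (by fun_prop) (E ^ 2) fun y => ?_)
        (integrable_gk.const_mul _) fun y => ?_
      · rw [abs_pow]; exact pow_le_pow_left₀ (abs_nonneg _) (hdb y) 2
      · have h1 : (Wd ε ω d y - 1) ^ 2 ≤ E ^ 2 := by
          rw [← sq_abs]; exact pow_le_pow_left₀ (abs_nonneg _) (hdb y) 2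
        have := mul_le_mul_of_nonneg_left h1 (gk_nonneg y)
        simp only
        linarith
    have hL : A ^ 2 * √(2 * Real.pi) - E ^ 2 * √(2 * Real.pi) ≤
        ∫ y, gk y * (Wd ε ω (ev n) y - 1) ^ 2 := by
      have hcos : A ^ 2 * √(2 * Real.pi) ≤
          2 * A ^ 2 * ∫ y, gk y * Real.cos (ω * √n * y) ^ 2 := by
        have := integral_gk_cos_sq (ω * √n)
        have := mul_le_mul_of_nonneg_left this (show 0 ≤ 2 * A ^ 2 by positivity)
        linarith
      have hR : ∫ y, gk y * (ps ε ω (ev n) (rest n) y) ^ 2 ≤ E ^ 2 * √(2 * Real.pi) := by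
        rw [← integral_gk, ← integral_const_mul]
        refine integral_mono (integrable_gk_mul (by fun_prop) (E ^ 2) fun y => ?_)
          (integrable_gk.const_mul _) fun y => ?_
        · rw [abs_pow]; exact pow_le_pow_left₀ (abs_nonneg _) (hrb y) 2
        · have h1 : (ps ε ω (ev n) (rest n) y) ^ 2 ≤ E ^ 2 := by
            rw [← sq_abs]; exact pow_le_pow_left₀ (abs_nonneg _) (hrb y) 2
          have := mul_le_mul_of_nonneg_left h1 (gk_nonneg y)
          simp only
          linarith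
      have i1 : Integrable (fun y => gk y * Real.cos (ω * √n * y) ^ 2) :=
        integrable_gk_mul (by fun_prop) 1 fun y => by
          rw [abs_pow]; exact pow_le_one₀ (abs_nonneg _) (Real.abs_cos_le_one _)
      have i2 : Integrable (fun y => gk y * (ps ε ω (ev n) (rest n) y) ^ 2) :=
        integrable_gk_mul (by fun_prop) (E ^ 2) fun y => by
          rw [abs_pow]; exact pow_le_pow_left₀ (abs_nonneg _) (hrb y) 2
      have i3 : Integrable (fun y => gk y * (Wd ε ω (ev n) y - 1) ^ 2) :=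
        integrable_gk_mul (by fun_prop) ((2 * A + E) ^ 2) fun y => by
          rw [abs_pow]
          refine pow_le_pow_left₀ (abs_nonneg _) ?_ 2
          rw [hWe y]
          have h1 : |2 * A * Real.cos (ω * √n * y)| ≤ 2 * A := by
            rw [abs_mul, abs_of_pos (by linarith : 0 < 2 * A)]
            exact mul_le_of_le_one_right (by linarith) (Real.abs_cos_le_one _)
          exact (abs_add_le _ _).trans (add_le_add h1 (hrb y))
      have i4 : Integrable (fun y => (2 * A ^ 2) * (gk y * Real.cos (ω * √n * y) ^ 2)) :=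
        i1.const_mul _
      have h5 : (∫ y, (2 * A ^ 2) * (gk y * Real.cos (ω * √n * y) ^ 2)) -
          ∫ y, gk y * (ps ε ω (ev n) (rest n) y) ^ 2 ≤
          ∫ y, gk y * (Wd ε ω (ev n) y - 1) ^ 2 := by
        rw [← integral_sub i4 i2]
        refine integral_mono (i4.sub i2) i3 fun y => ?_
        simp only
        rw [hWe y]
        set c := Real.cos (ω * √n * y)
        set r := ps ε ω (ev n) (rest n) y
        have h6 : 2 * A ^ 2 * c ^ 2 - r ^ 2 ≤ (2 * A * c + r) ^ 2 := by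
          nlinarith [sq_nonneg (A * c + r)]
        have := mul_le_mul_of_nonneg_left h6 (gk_nonneg y)
        nlinarith
      rw [integral_const_mul] at h5
      linarith
    nlinarith

end Pool.Agent.H46.Ent
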